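import Pool.Agent.W187.CV.Stm

set_option autoImplicit false

namespace Pool.Agent.W83.CV

theorem primes0 : ∀ θ : ℝ, 1 < θ →
  Summable fun x : ℕ × ℕ => if x.1.Prime then Real.exp (-(θ * ((x.2 + 1) * Real.log x.1))) else 0 := by
  intro θ hθ
  have h1 : Summable fun n : ℕ => (n : ℝ) ^ (-θ) := Real.summable_nat_rpow.2 (by linarith)
  have h2 : Summable fun k : ℕ => ((2 : ℝ) ^ (-θ)) ^ k := by
    apply summable_geometric_of_lt_one (by positivity)
    exact Real.rpow_lt_one_of_one_lt_of_neg (by norm_num) (by linarith)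
  have h3 : Summable fun x : ℕ × ℕ => (x.1 : ℝ) ^ (-θ) * ((2 : ℝ) ^ (-θ)) ^ x.2 :=
    h1.mul_of_nonneg h2 (fun n => by positivity) (fun k => by positivity)
  refine Summable.of_nonneg_of_le (fun x => ?_) (fun x => ?_) h3
  · split_ifs
    · positivity
    · exact le_rfl
  · split_ifs with hp
    · have hp2 : (2 : ℝ) ≤ x.1 := by exact_mod_cast hp.two_le
      have hp0 : (0 : ℝ) < x.1 := by linarith
      have hlog : Real.log 2 ≤ Real.log x.1 := Real.log_le_log (by norm_num) hp2
      have h4 : (x.1 : ℝ) ^ (-θ) = Real.exp (-(θ * Real.log x.1)) := by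
        rw [Real.rpow_def_of_pos hp0]
        congr 1
        ring
      have h5 : ((2 : ℝ) ^ (-θ)) ^ x.2 = Real.exp (-(θ * Real.log 2) * x.2) := by
        rw [Real.rpow_def_of_pos (by norm_num), ← Real.exp_nat_mul]
        congr 1
        ring
      rw [h4, h5, ← Real.exp_add]
      apply Real.exp_le_exp.2
      have h6 : 0 ≤ θ * x.2 * (Real.log x.1 - Real.log 2) := by
        have : 0 ≤ θ := by linarith
        have h7 : 0 ≤ Real.log x.1 - Real.log 2 := by linarith
        positivity
      nlinarith [h6]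
    · positivity

theorem primes : Pool.Agent.W187.CV.S_PRIMES := primes0

end Pool.Agent.W83.CV
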